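import Pool.Agent.H508.Y.A4
import Pool.Agent.H508.D.Z2
import Pool.Agent.H508.D.Z3
import Pool.Graph.R_seed8.Y696.Hex
import Pool.Graph.R_seed8.Y696.CTK.Asm

/-!
# The central value of `L(E_D/K, s)` and the determinant of the periods
-/

set_option autoImplicit false
set_option linter.unusedSectionVars false

open Filter
open scoped Classical Topology PeriodPair

namespace Pool.Agent.H508.Y

open NumberField
open Pool.Agent.Y692.QS (Ei w nr toC)
open Pool.Agent.Y703.CT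
open Pool.Agent.W192.HK Pool.Agent.TH936.CM
open Pool.Agent.Y715.Dist Pool.Agent.Y715.Idn
open Pool.Agent.Y696 hiding HH RR
open Pool.Agent.Y715.T.Rs (eq0 eq0_coe card_quo)
open Pool.Agent.Y715.CT.Hec (cP XX)
open Pool.Agent.H462.CTU.Phi Pool.Agent.H462.CTU.Chr
open Pool.Agent.H462.CTU.Val (IsHLk)
open Pool.Agent.H462.CTU.LK (Dk)
open Pool.Agent.Y696.CTK

variable {L : PeriodPair} {Ω : ℂ} {σ : ℂ ≃+* ℂ}
variable {J : Type} [Fintype J] {π : J → Ei} {e : J → ZMod 3} {k : ZMod 3} {D : Ei}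

/-- two entire functions which are equal for `Re s > 3/2` are equal -/
lemma ent_eq {F G : ℂ → ℂ} (hF : Differentiable ℂ F) (hG : Differentiable ℂ G)
    (h : ∀ s : ℂ, 3 / 2 < s.re → F s = G s) : F = G := by
  have hopen : IsOpen {s : ℂ | (3 / 2 : ℝ) < s.re} := isOpen_lt continuous_const Complex.continuous_re
  have h2 : (2 : ℂ) ∈ {s : ℂ | (3 / 2 : ℝ) < s.re} := by
    show (3 / 2 : ℝ) < (2 : ℂ).re
    norm_num
  refine AnalyticOnNhd.eq_of_eventuallyEq (z₀ := 2) (fun s _ => hF.analyticAt s)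
    (fun s _ => hG.analyticAt s) ?_
  filter_upwards [hopen.mem_nhds h2] with s hs
  exact h s hs

lemma hlk_unique {F G : ℂ → ℂ} (hF : IsHLk k π e F) (hG : IsHLk k π e G) : F = G :=
  ent_eq hF.1 hG.1 fun s hs => (hF.2 s hs).unique (hG.2 s hs)

/-- a number fixed by the automorphisms which fix `ω` has a rational norm -/
lemma norm_rat {z : ℂ} (hz : ∀ σ : ℂ ≃+* ℂ, σ om = om → σ z = z) :
    ∃ q : ℚ, (q : ℂ) = z * (starRingEnd ℂ) z := by
  have hom : (starRingEnd ℂ) om = -1 - om := Pool.Agent.Y688.conj_w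
  have hbar : ∀ σ : ℂ ≃+* ℂ, σ om = om → σ ((starRingEnd ℂ) z) = (starRingEnd ℂ) z := by
    intro σ hσ
    have h1 := hz ((starRingAut : ℂ ≃+* ℂ).trans (σ.trans starRingAut)) (by
      show (starRingEnd ℂ) (σ ((starRingEnd ℂ) om)) = om
      rw [hom, map_sub, map_neg, map_one, hσ, map_sub, map_neg, map_one, hom]
      ring)
    have h2 : (starRingEnd ℂ) (σ ((starRingEnd ℂ) z)) = z := h1
    have h3 := congrArg (starRingEnd ℂ) h2
    rwa [Complex.conj_conj] at h3
  refine Pool.Agent.H508.D.fixed_rat fun σ => ?_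
  rcases Pool.Agent.H508.D.σ_w σ with h | h
  · have h' : σ om = om := h
    rw [map_mul, hz σ h', hbar σ h']
  · have h' : σ om = (starRingEnd ℂ) om := h
    have h1 : ((starRingAut : ℂ ≃+* ℂ).trans σ) om = om := by
      show σ ((starRingEnd ℂ) om) = om
      rw [hom, map_sub, map_neg, map_one, h', hom]
      ring
    have h2 : σ ((starRingEnd ℂ) z) = z := hz _ h1
    have h3 : σ z = (starRingEnd ℂ) z := by
      have h4 := hbar _ h1
      have h5 : σ ((starRingEnd ℂ) ((starRingEnd ℂ) z)) = (starRingEnd ℂ) z := h4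
      rwa [Complex.conj_conj] at h5
    rw [map_mul, h2, h3, mul_comm]

/-- **The central value of the Hecke `L`-function, times the cube root of `D`, divided by the period,
is in `ℚ(ω)`.** -/
theorem fix_val [Nonempty J] (hC : Cur L Ω) (hdt : Dt π e) (hD : Dk k π e D) {F : ℂ → ℂ}
    (hF : IsHLk k π (fun i => -e i) F) {θ : ℂ} (hθ : θ ^ 3 = toC D) (hw : σ om = om) :
    σ (θ * ((starRingEnd ℂ) (F 1) / Ω)) = θ * ((starRingEnd ℂ) (F 1) / Ω) := by
  have hdt' : Dt π (fun i => -e i) := ⟨hdt.pq, hdt.nd, fun j => neg_ne_zero.2 (hdt.e0 j)⟩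
  obtain ⟨j, G, hG, hv⟩ := act_val hdt' k
  obtain rfl := hlk_unique hG hF
  obtain ⟨u, hu, hcop, hθu⟩ := theta_act hC hw hdt hD hθ
  have h1 := hv L Ω hC σ hw u hu hcop
  rw [map_mul, hθu j]
  calc _ = θ * (σ ((starRingEnd ℂ) (G 1) / Ω) * (ek k j u * XX π (fun i => -e i) u)) := by ring
    _ = _ := by rw [h1]

/-- **The rationality.** -/
theorem rat_val [Nonempty J] (hC : Cur L Ω) (hdt : Dt π e) (hD : Dk k π e D) {F : ℂ → ℂ}
    (hF : IsHLk k π (fun i => -e i) F) {θ : ℂ} (hθ : θ ^ 3 = toC D) :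
    ∃ q : ℚ, (q : ℂ) * (Complex.normSq Ω : ℂ) = (Complex.normSq θ : ℂ) * (F 1 * (starRingEnd ℂ) (F 1)) := by
  obtain ⟨q, hq⟩ := norm_rat (z := θ * ((starRingEnd ℂ) (F 1) / Ω)) fun σ hσ =>
    fix_val hC hdt hD hF hθ hσ
  have hΩ := hC.lat.ne
  have hΩ' : (starRingEnd ℂ) Ω ≠ 0 := (map_ne_zero _).2 hΩ
  refine ⟨q, ?_⟩
  rw [hq, ← Complex.mul_conj, ← Complex.mul_conj, map_mul, map_div₀, Complex.conj_conj]
  field_simp

/-- the determinant of the period matrix of `dx/(2y+D)` and `a dx/(2y+D)`, `a² = -3`; `δ` is the image of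
`a` -/
noncomputable def pdet (δ : ℂ) (M : PeriodPair) : ℝ :=
  M.ω₁.re * (δ * M.ω₂).re - M.ω₂.re * (δ * M.ω₁).re

lemma sq_neg_three {δ : ℂ} (hδ : δ ^ 2 = -3) : δ.re = 0 ∧ δ.im ^ 2 = 3 := by
  have h1 := congrArg Complex.re hδ
  have h2 := congrArg Complex.im hδ
  rw [pow_two, Complex.mul_re, Complex.neg_re, Complex.re_ofNat] at h1
  rw [pow_two, Complex.mul_im, Complex.neg_im, Complex.im_ofNat, neg_zero] at h2
  have h3 : δ.re * δ.im = 0 := by linarith
  have h4 : δ.re = 0 := by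
    rcases mul_eq_zero.1 h3 with h | h
    · exact h
    · rw [h] at h1
      nlinarith [sq_nonneg δ.re]
  refine ⟨h4, ?_⟩
  rw [h4] at h1
  linarith

/-- the determinant for a lattice `Ω ℤ[ω]` -/
lemma pdet_lat {δ : ℂ} (hδ : δ ^ 2 = -3) {M : PeriodPair} {Ω : ℂ} (hΩ : Ω ≠ 0)
    (hM : M.lattice = (hex Ω hΩ).lattice) :
    ∃ q : ℚ, q ≠ 0 ∧ pdet δ M = q * Complex.normSq Ω := by
  have key : ∀ z ∈ M.lattice, ∃ a b : ℤ, z = (a + b * om) * Ω := by
    intro z hz
    rw [hM] at hz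
    obtain ⟨r, hr⟩ := ((hex_lat Ω hΩ).mem _).1 hz
    obtain ⟨a, b, hab⟩ := r.2
    exact ⟨a, b, by rw [hr, hab, mul_comm]⟩
  obtain ⟨a, b, h1⟩ := key _ M.ω₁_mem_lattice
  obtain ⟨c, d, h2⟩ := key _ M.ω₂_mem_lattice
  have h3 : √3 * √3 = 3 := Real.mul_self_sqrt (by norm_num)
  obtain ⟨h4, h5⟩ := sq_neg_three hδ
  have h6 : δ.im = √3 ∨ δ.im = -√3 := by
    have h7 : (δ.im - √3) * (δ.im + √3) = 0 := by nlinarith
    rcases mul_eq_zero.1 h7 with h | h
    · left; linarith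
    · right; linarith
  have hre : om.re = -1 / 2 := rfl
  have him : om.im = √3 / 2 := rfl
  have e1 : pdet δ M = -δ.im * (√3 / 2) * ((a * d - b * c : ℤ) : ℝ) * Complex.normSq Ω := by
    unfold pdet
    rw [h1, h2, Complex.normSq_apply]
    simp only [Complex.mul_re, Complex.mul_im, Complex.add_re, Complex.add_im, Complex.intCast_re,
      Complex.intCast_im, hre, him, h4]
    push_cast
    ring
  have hne : (a * d - b * c : ℤ) ≠ 0 := by
    intro h0
    have hind := M.indep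
    rw [LinearIndependent.pair_iff] at hind
    have hc : (c : ℂ) * M.ω₁ - a * M.ω₂ = 0 ∧ (d : ℂ) * M.ω₁ - b * M.ω₂ = 0 := by
      have h0' : (a : ℂ) * d - b * c = 0 := by exact_mod_cast h0
      constructor
      · rw [h1, h2]
        linear_combination (-om * Ω) * h0'
      · rw [h1, h2]
        linear_combination Ω * h0'
    have k1 := hind (c : ℝ) (-(a : ℝ)) (by
      rw [Complex.real_smul, Complex.real_smul]
      push_cast
      linear_combination hc.1)
    have k2 := hind (d : ℝ) (-(b : ℝ)) (by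
      rw [Complex.real_smul, Complex.real_smul]
      push_cast
      linear_combination hc.2)
    have ha : (a : ℂ) = 0 := by
      have := k1.2
      have h7 : (a : ℝ) = 0 := by linarith
      exact_mod_cast h7
    have hb : (b : ℂ) = 0 := by
      have := k2.2
      have h7 : (b : ℝ) = 0 := by linarith
      exact_mod_cast h7
    have h8 : M.ω₁ = 0 := by
      rw [h1, ha, hb]
      ring
    have h9 := hind 1 0 (by rw [h8]; simp)
    exact one_ne_zero h9.1
  rcases h6 with h6 | h6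
  · refine ⟨-(3 / 2) * (a * d - b * c : ℤ), ?_, ?_⟩
    · exact mul_ne_zero (by norm_num) (by exact_mod_cast hne)
    · rw [e1, h6]
      push_cast
      linear_combination (-(1 / 2 : ℝ) * ((a : ℝ) * d - b * c) * Complex.normSq Ω) * h3
  · refine ⟨(3 / 2) * (a * d - b * c : ℤ), ?_, ?_⟩
    · exact mul_ne_zero (by norm_num) (by exact_mod_cast hne)
    · rw [e1, h6]
      push_cast
      linear_combination ((1 / 2 : ℝ) * ((a : ℝ) * d - b * c) * Complex.normSq Ω) * h3

lemma cube_inj {x y : ℝ} (hx : 0 ≤ x) (hy : 0 ≤ y) (h : x ^ 3 = y ^ 3) : x = y :=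
  (pow_left_inj₀ hx hy (by norm_num)).1 h


section
variable {K : Type} [Field K] [NumberField K] (j : Ei ≃+* 𝓞 K)

/-- an embedding of `K` is one of the two on the Eisenstein integers -/
lemma emb_cases (τ : K →+* ℂ) (z : Ei) :
    τ (j z : K) = toC z ∨ τ (j z : K) = (starRingEnd ℂ) (toC z) := by
  set t : ℂ := τ (j w : K) with ht
  have hw2 : (w : Ei) ^ 2 + w + 1 = 0 := by decide
  have h1 : t ^ 2 + t + 1 = 0 := by
    have h2 : ((j w : 𝓞 K) : K) ^ 2 + (j w : K) + 1 = 0 := by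
      have h3 := congrArg (fun x : Ei => ((j x : 𝓞 K) : K)) hw2
      simpa using h3
    have h4 := congrArg τ h2
    rw [map_add, map_add, map_pow, map_one, map_zero] at h4
    exact h4
  have hom := om_sq
  have hwC : toC w = om := by
    have := toC_eq' 0 1
    have e1 : (w : Ei) = ⟨0, 1⟩ := rfl
    rw [e1, this]
    push_cast
    ring
  have h5 : (t - om) * (t - (-1 - om)) = 0 := by linear_combination h1 - hom
  have hz : z = (z.re : Ei) + (z.im : Ei) * w := Pool.Agent.Y692.QS.eta z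
  have h6 : τ (j z : K) = z.re + z.im * t := by
    have h8 : ((j z : 𝓞 K) : K) = (z.re : K) + (z.im : K) * (j w : K) := by
      conv_lhs => rw [hz]
      rw [map_add, map_mul, map_intCast, map_intCast]
      push_cast
      rfl
    rw [h8, map_add, map_mul, map_intCast, map_intCast]
  have h7 : toC z = z.re + z.im * om := by
    conv_lhs => rw [hz]
    rw [map_add, map_mul, map_intCast, map_intCast, hwC]
  rcases mul_eq_zero.1 h5 with h | h
  · left
    rw [h6, h7, sub_eq_zero.1 h]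
  · right
    have hb : (starRingEnd ℂ) om = -1 - om := Pool.Agent.Y688.conj_w
    rw [h6, h7, sub_eq_zero.1 h, map_add, map_mul, hb, map_intCast, map_intCast]

/-- **The central value of `L(E_D/K, s)` is a rational multiple of the determinant of the periods.** -/
theorem period_formula [Nonempty J] (hdt : Dt π e) (hD : Dk k π e D) {Φ : ℂ → ℂ}
    (hΦ : Differentiable ℂ Φ) (hL : ∀ s : ℂ, 3 / 2 < s.re → Φ s = (ED (j D : K)).LSeries s)
    (τ : K →+* ℂ) {a : K} (ha : a ^ 2 = -3) {M : PeriodPair} (h2 : M.g₂ = 0)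
    (h3 : M.g₃ = -(τ (j D : K)) ^ 2) : ∃ q : ℚ, Φ 1 = q * pdet (τ a) M := by
  have hdt' : Dt π (fun i => -e i) := ⟨hdt.pq, hdt.nd, fun j => neg_ne_zero.2 (hdt.e0 j)⟩
  obtain ⟨-, F, hF, -⟩ := act_val hdt' k
  have hΦF : Φ = fun s => F s * (starRingEnd ℂ) (F ((starRingEnd ℂ) s)) :=
    ent_eq hΦ (diff_conj hF.1) fun s hs => by
      rw [hL s hs]
      exact ((Pool.Agent.H462.CTU.LK.LK Pool.Agent.Y350.CT.rec j hdt hD hF hs).2).symm
  have hΦ1 : Φ 1 = F 1 * (starRingEnd ℂ) (F 1) := by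
    rw [hΦF]
    show F 1 * (starRingEnd ℂ) (F ((starRingEnd ℂ) 1)) = _
    rw [map_one]
  obtain ⟨Ω, hΩ, hC⟩ := exists_cur
  obtain ⟨θ, hθ⟩ := IsAlgClosed.exists_pow_nat_eq (toC D) (n := 3) (by norm_num)
  obtain ⟨q0, hq0⟩ := rat_val hC hdt hD hF hθ
  have hDne : toC D ≠ 0 := by
    intro h0
    have h1 : D = 0 := (map_eq_zero_iff toC Pool.Agent.Y692.QS.toC_inj).1 h0
    exact dk_ne hdt hD h1
  have hθ0 : θ ≠ 0 := by
    rintro rfl
    apply hDne
    rw [← hθ]
    norm_num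
  set D' : ℂ := τ (j D : K) with hD'
  obtain ⟨θ', hθ'⟩ := IsAlgClosed.exists_pow_nat_eq D' (n := 3) (by norm_num)
  have hDn : Complex.normSq D' = Complex.normSq (toC D) := by
    rcases emb_cases j τ D with h | h
    · rw [hD', h]
    · rw [hD', h, Complex.normSq_conj]
  have hθn : Complex.normSq θ' = Complex.normSq θ := by
    refine cube_inj (Complex.normSq_nonneg _) (Complex.normSq_nonneg _) ?_
    rw [← map_pow, ← map_pow, hθ, hθ', hDn]
  have hθ'0 : θ' ≠ 0 := by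
    intro h0
    rw [h0, map_zero] at hθn
    exact hθ0 (Complex.normSq_eq_zero.1 hθn.symm)
  have hΩ' : Ω / θ' ≠ 0 := div_ne_zero hΩ hθ'0
  have hg3 : (hex 1 one_ne_zero).g₃ = -Ω ^ 6 := by
    have h4 := hC.g3
    rw [hex_g3_scale hΩ] at h4
    have h5 : Ω ^ 6 ≠ 0 := pow_ne_zero 6 hΩ
    field_simp at h4
    linear_combination h4
  have hlat : M.lattice = (hex (Ω / θ') hΩ').lattice := by
    refine Pool.Agent.Y577.LU.lat_unique _ _ ?_ ?_
    · rw [h2, hex_g2]
    · rw [h3, hex_g3_scale, hg3, ← hθ']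
      field_simp
  have hδ : (τ a) ^ 2 = -3 := by rw [← map_pow, ha, map_neg, map_ofNat]
  obtain ⟨q1, hq1, hp⟩ := pdet_lat hδ hΩ' hlat
  refine ⟨q0 / q1, ?_⟩
  have hq1' : (q1 : ℂ) ≠ 0 := by exact_mod_cast hq1
  have hn : (Complex.normSq θ : ℂ) ≠ 0 := by
    rw [Complex.ofReal_ne_zero, Ne, Complex.normSq_eq_zero]
    exact hθ0
  rw [hp, hΦ1, map_div₀, hθn]
  push_cast
  have e1 : F 1 * (starRingEnd ℂ) (F 1) = q0 * (Complex.normSq Ω : ℂ) / (Complex.normSq θ : ℂ) := by
    rw [hq0]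
    field_simp
  rw [e1]
  field_simp

end

end Pool.Agent.H508.Y
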