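import Pool.Agent.H508.Y.A6
import Pool.Agent.H462.JL.Res

/-!
# All the parts for the cube-free elements
-/

set_option autoImplicit false
set_option linter.unusedSectionVars false

open Filter
open scoped Classical Topology PeriodPair TensorProduct

namespace Pool.Agent.H508.Y

open NumberField
open Pool.Agent.Y692.QS (Ei w nr toC)
open Pool.Agent.Y703.CT
open Pool.Agent.Y696 hiding HH RR
open Pool.Agent.Y715.T.RecG (Pq)
open Pool.Agent.H462.CTU.LK (Dk)
open Pool.Agent.H462.CTU.Law.Cou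
open Pool.Agent.Y696.CTK
open Pool.Agent.H462.JL (Cf3 CfK CfK_iff exists_rep Lv lp le' dt_lp un_dk pD_pe pe)

/-- the factorization of a cube-free element prime to three which is not a unit -/
lemma exists_dk3 {z : Ei} (hz : Cf3 z) (hu : ¬ IsUnit z) :
    ∃ (k : ZMod 3) (J : Type) (_ : Fintype J) (_ : Nonempty J) (π : J → Ei) (e : J → ZMod 3),
      Dt π e ∧ Dk k π e z := by
  obtain ⟨p, T, g, h1, -, h3⟩ := exists_rep hz
  refine ⟨p.2, Lv T g, inferInstance, ?_, lp T g, le' T g, dt_lp (fun ρ hρ => (h1 ρ hρ).1) g,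
    un_dk (b := p.1) (by rw [pD_pe]; exact h3)⟩
  by_contra hne
  rw [not_nonempty_iff] at hne
  apply hu
  rw [h3, ← pD_pe]
  unfold pD
  rw [Fintype.prod_empty, mul_one]
  exact un_isUnit _

/-- **All the parts which hold for every cube-free element.** -/
theorem all_B {K : Type} [Field K] [NumberField K] [IsCyclotomicExtension {3} ℚ K] {B : 𝓞 K}
    (hB : CfK B) (hu : ¬ IsUnit B) :
    (∃ Φ : ℂ → ℂ, Differentiable ℂ Φ ∧ ∀ s : ℂ, 3 / 2 < s.re →
      LSeriesSummable ((fun n : ℤ => (n : ℂ)) ∘ (ED (B : K)).LFunction) s ∧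
        Φ s = (ED (B : K)).LSeries s) ∧
    ∀ Φ : ℂ → ℂ, Differentiable ℂ Φ → (∀ s : ℂ, 3 / 2 < s.re → Φ s = (ED (B : K)).LSeries s) →
      ∀ (τ : K →+* ℂ) (a : K), a ^ 2 = -3 → ∀ M : PeriodPair, M.g₂ = 0 → M.g₃ = -(τ (B : K)) ^ 2 →
        ∃ q : ℚ, Φ 1 = q * pdet (τ a) M := by
  obtain ⟨⟨j, hj⟩, -⟩ := Pool.Agent.Y455.CTK.jex K
  obtain ⟨z, rfl⟩ := j.surjective B
  have hz : Cf3 z := (CfK_iff j hj z).1 hB
  have hu' : ¬ IsUnit z := fun h => hu (h.map j)
  obtain ⟨k, J, _, _, π, e, hdt, hDk⟩ := exists_dk3 hz hu'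
  exact ⟨entire_all j hdt hDk, fun Φ h1 h2 τ a ha M h3 h4 => period_formula j hdt hDk h1 h2 τ ha h3 h4⟩

/-- **All the parts which hold for every element with a corank.** -/
theorem all_cor {K : Type} [Field K] [NumberField K] [IsCyclotomicExtension {3} ℚ K] {B : 𝓞 K}
    {r : ℕ} (hB : Pool.Agent.H462.JL.CorKG B r) (hu : ¬ IsUnit B) :
    (∃ Φ : ℂ → ℂ, Differentiable ℂ Φ ∧ ∀ s : ℂ, 3 / 2 < s.re →
      LSeriesSummable ((fun n : ℤ => (n : ℂ)) ∘ (ED (B : K)).LFunction) s ∧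
        Φ s = (ED (B : K)).LSeries s) ∧
    ∀ Φ : ℂ → ℂ, Differentiable ℂ Φ → (∀ s : ℂ, 3 / 2 < s.re → Φ s = (ED (B : K)).LSeries s) →
      ∀ (τ : K →+* ℂ) (a : K), a ^ 2 = -3 → ∀ M : PeriodPair, M.g₂ = 0 → M.g₃ = -(τ (B : K)) ^ 2 →
        ∃ q : ℚ, Φ 1 = q * pdet (τ a) M := by
  obtain ⟨⟨j, hj⟩, -⟩ := Pool.Agent.Y455.CTK.jex K
  obtain ⟨z, rfl⟩ := j.surjective B
  have hu' : ¬ IsUnit z := fun h => hu (h.map j)
  obtain ⟨k, n, π, e, hdt, hDk, -⟩ := (Pool.Agent.H462.JL.corG_iff j hj z r).1 hB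
  have hne : Nonempty (Fin n) := by
    by_contra hne
    rw [not_nonempty_iff] at hne
    obtain ⟨b, hb⟩ := Pool.Agent.H462.JL.dk_un hDk
    apply hu'
    rw [hb]
    unfold pD
    rw [Fintype.prod_empty, mul_one]
    exact un_isUnit _
  exact ⟨entire_all j hdt hDk, fun Φ h1 h2 τ a ha M h3 h4 => period_formula j hdt hDk h1 h2 τ ha h3 h4⟩

/-- the elements of the family are not units -/
lemma not_unit_tw {K : Type} [Field K] {m : Bool} {A D : 𝓞 K} (h : ¬ IsUnit D) :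
    ¬ IsUnit (if m then A * D ^ 2 else A * D) := by
  intro h1
  split_ifs at h1
  · exact h (isUnit_of_dvd_unit ((dvd_pow_self D two_ne_zero).trans (dvd_mul_left _ _)) h1)
  · exact h (isUnit_of_dvd_unit (dvd_mul_left _ _) h1)

/-! ### finite groups -/

/-- a finite group has no rational part -/
lemma tensor_zero {G : Type} [AddCommGroup G] [Finite G] : Subsingleton (ℚ ⊗[ℤ] G) := by
  refine subsingleton_of_forall_eq 0 fun x => ?_
  induction x using TensorProduct.induction_on with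
  | zero => rfl
  | add x y hx hy => rw [hx, hy, add_zero]
  | tmul x y =>
    have hn : Nat.card G ≠ 0 := Nat.card_pos.ne'
    have h1 : (Nat.card G) • y = 0 := card_nsmul_eq_zero'
    have h3 : x = (Nat.card G : ℤ) • (x / (Nat.card G : ℚ)) := by
      rw [zsmul_eq_mul]
      push_cast
      field_simp
    rw [h3, TensorProduct.smul_tmul, natCast_zsmul, h1, TensorProduct.tmul_zero]

/-! ### products -/

/-- a product of entire functions -/
lemma prod_entire {ι : Type} [Fintype ι] {Ψ : ι → ℂ → ℂ}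
    (h1 : ∀ i, Differentiable ℂ (Ψ i)) : Differentiable ℂ (fun s => ∏ i, Ψ i s) :=
  Differentiable.fun_finsetProd fun i _ => h1 i

end Pool.Agent.H508.Y
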