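import Pool.Agent.H508.Y.A5
import Pool.Agent.H462.CTU.K

/-!
# All the parts for one `D`
-/

set_option autoImplicit false
set_option linter.unusedSectionVars false

open Filter
open scoped Classical Topology PeriodPair

namespace Pool.Agent.H508.Y

open NumberField
open Pool.Agent.Y692.QS (Ei w nr toC)
open Pool.Agent.Y703.CT
open Pool.Agent.Y696 hiding HH RR
open Pool.Agent.Y715.T.RecG (Pq)
open Pool.Agent.Y699.E (PD mem_PD PS PS_prod eq_of_dvd pq_ne nrm)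
open Pool.Agent.H462.CTU.Val (IsHLk)
open Pool.Agent.H462.CTU.LK (Dk)
open Pool.Agent.H462.CTU.Law.Cou
open Pool.Agent.Y696.CTK
open Pool.Agent.Y715.CT.Hec (cP XX)

/-- the factorization of a squarefree element prime to three which is not a unit -/
lemma exists_dk {z : Ei} (hz : A0 z) (hu : ¬ IsUnit z) :
    ∃ (k : ZMod 3) (J : Type) (_ : Fintype J) (_ : Nonempty J) (π : J → Ei),
      Dt π (fun _ => 1) ∧ Dk k π (fun _ => 1) z := by
  obtain ⟨⟨b, k⟩, n, hn, h1⟩ := exists_el hz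
  have hne : (PD n).Nonempty := by
    rw [Finset.nonempty_iff_ne_empty]
    intro h4
    apply hu
    rw [h1, ← hn.prod, h4, Finset.prod_empty, mul_one]
    exact un_isUnit _
  have hp : pD (fun x : PD n => (x : Ei)) (fun _ => 1) = n := by
    have h5 : pD (fun x : PD n => (x : Ei)) (fun _ => 1) = ∏ x : PD n, (x : Ei) := by
      unfold pD
      exact Finset.prod_congr rfl fun x _ => pow_one _
    rw [h5]
    conv_rhs => rw [← hn.prod]
    exact Finset.prod_coe_sort (PD n) (fun x => x)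
  refine ⟨k, PD n, inferInstance, hne.to_subtype, fun x => x, ⟨fun x => ?_, fun x y hxy hd => ?_,
    fun _ => one_ne_zero⟩, ?_⟩
  · exact ((mem_PD hn.ne).1 x.2).1
  · exact hxy (Subtype.ext (eq_of_dvd ((mem_PD hn.ne).1 y.2).1 ((mem_PD hn.ne).1 x.2).1 hd).symm)
  · unfold Dk
    rw [hp, h1]
    unfold un
    cases b
    · left
      simp
    · right
      simp

section
variable {K : Type} [Field K] [NumberField K] (j : Ei ≃+* 𝓞 K)
variable {J : Type} [Fintype J] {π : J → Ei} {e : J → ZMod 3} {k : ZMod 3} {D : Ei}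

/-- the entire continuation -/
theorem entire_all [Nonempty J] (hdt : Dt π e) (hD : Dk k π e D) :
    ∃ Φ : ℂ → ℂ, Differentiable ℂ Φ ∧ ∀ s : ℂ, 3 / 2 < s.re →
      LSeriesSummable ((fun n : ℤ => (n : ℂ)) ∘ (ED (j D : K)).LFunction) s ∧
        Φ s = (ED (j D : K)).LSeries s := by
  have hdt' : Dt π (fun i => -e i) := ⟨hdt.pq, hdt.nd, fun j => neg_ne_zero.2 (hdt.e0 j)⟩
  obtain ⟨-, F, hF, -⟩ := act_val hdt' k
  exact ⟨fun s => F s * (starRingEnd ℂ) (F ((starRingEnd ℂ) s)), diff_conj hF.1, fun s hs =>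
    Pool.Agent.H462.CTU.LK.LK Pool.Agent.Y350.CT.rec j hdt hD hF hs⟩

end

/-- **All the parts which hold for every `D`.** -/
theorem all_D {K : Type} [Field K] [NumberField K] [IsCyclotomicExtension {3} ℚ K] {D : 𝓞 K}
    (hD : Squarefree D ∧ ¬ (3 : ℤ) ∣ Algebra.norm ℤ D) (hu : ¬ IsUnit D) :
    (∃ Φ : ℂ → ℂ, Differentiable ℂ Φ ∧ ∀ s : ℂ, 3 / 2 < s.re →
      LSeriesSummable ((fun n : ℤ => (n : ℂ)) ∘ (ED (D : K)).LFunction) s ∧
        Φ s = (ED (D : K)).LSeries s) ∧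
    ∀ Φ : ℂ → ℂ, Differentiable ℂ Φ → (∀ s : ℂ, 3 / 2 < s.re → Φ s = (ED (D : K)).LSeries s) →
      ∀ (τ : K →+* ℂ) (a : K), a ^ 2 = -3 → ∀ M : PeriodPair, M.g₂ = 0 → M.g₃ = -(τ (D : K)) ^ 2 →
        ∃ q : ℚ, Φ 1 = q * pdet (τ a) M := by
  obtain ⟨⟨j, hj⟩, -⟩ := Pool.Agent.Y455.CTK.jex K
  obtain ⟨z, rfl⟩ := j.surjective D
  have hz : A0 z := (Pool.Agent.H462.CTU.K.AK_iff j hj z).1 hD
  have hu' : ¬ IsUnit z := fun h => hu (h.map j)
  obtain ⟨k, J, _, _, π, hdt, hDk⟩ := exists_dk hz hu'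
  exact ⟨entire_all j hdt hDk, fun Φ h1 h2 τ a ha M h3 h4 => period_formula j hdt hDk h1 h2 τ ha h3 h4⟩

/-! ### period lattices -/

/-- there is a lattice with `g₂ = 0` and a given `g₃ ≠ 0` -/
lemma exists_period {c : ℂ} (hc : c ≠ 0) : ∃ M : PeriodPair, M.g₂ = 0 ∧ M.g₃ = -c ^ 2 := by
  obtain ⟨Ω, hΩ, hC⟩ := exists_cur
  obtain ⟨θ, hθ⟩ := IsAlgClosed.exists_pow_nat_eq c (n := 3) (by norm_num)
  have hθ0 : θ ≠ 0 := by
    rintro rfl
    apply hc
    rw [← hθ]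
    norm_num
  have hg3 : (hex 1 one_ne_zero).g₃ = -Ω ^ 6 := by
    have h4 := hC.g3
    rw [hex_g3_scale hΩ] at h4
    have h5 : Ω ^ 6 ≠ 0 := pow_ne_zero 6 hΩ
    field_simp at h4
    linear_combination h4
  have hΩ' : Ω / θ ≠ 0 := div_ne_zero hΩ hθ0
  refine ⟨hex (Ω / θ) hΩ', hex_g2 _ _, ?_⟩
  rw [hex_g3_scale, hg3, ← hθ]
  field_simp

/-- the determinant is not zero -/
lemma pdet_ne {δ : ℂ} (hδ : δ ^ 2 = -3) (M : PeriodPair) : pdet δ M ≠ 0 := by
  obtain ⟨h4, h5⟩ := sq_neg_three hδ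
  have h6 : δ.im ≠ 0 := by
    intro h0
    rw [h0] at h5
    norm_num at h5
  have e1 : pdet δ M = -δ.im * (M.ω₁.re * M.ω₂.im - M.ω₂.re * M.ω₁.im) := by
    unfold pdet
    simp only [Complex.mul_re, h4]
    ring
  rw [e1]
  refine mul_ne_zero (neg_ne_zero.2 h6) fun h0 => ?_
  have hind := M.indep
  rw [LinearIndependent.pair_iff] at hind
  have k1 := hind M.ω₂.re (-M.ω₁.re) (by
    apply Complex.ext
    · simp
      ring
    · simp
      linarith)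
  have k2 := hind M.ω₂.im (-M.ω₁.im) (by
    apply Complex.ext
    · simp
      linarith
    · simp
      ring)
  have h8 : M.ω₁ = 0 := by
    apply Complex.ext
    · have := k1.2; simp at this; simpa using this
    · have := k2.2; simp at this; simpa using this
  have h9 := hind 1 0 (by rw [h8]; simp)
  exact one_ne_zero h9.1

/-! ### meromorphic continuations -/

lemma cont_eq {Φ Ψ : ℂ → ℂ} {U : Set ℂ} (hU : IsOpen U) (hc : IsPreconnected U) (h1 : (1 : ℂ) ∈ U)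
    (h2 : ∀ s : ℂ, 3 / 2 < s.re → s ∈ U) (hΦ : MeromorphicOn Φ U) (hΨ : Differentiable ℂ Ψ)
    (h : ∀ s : ℂ, 3 / 2 < s.re → Φ s = Ψ s) : Φ =ᶠ[𝓝[≠] 1] Ψ := by
  have hf : MeromorphicOn (Φ - Ψ) U := hΦ.sub fun s _ => (hΨ.analyticAt s).meromorphicAt
  have h3 : meromorphicOrderAt (Φ - Ψ) 2 = ⊤ := by
    rw [meromorphicOrderAt_eq_top_iff]
    have hopen : IsOpen {s : ℂ | (3 / 2 : ℝ) < s.re} :=
      isOpen_lt continuous_const Complex.continuous_re
    have h4 : (2 : ℂ) ∈ {s : ℂ | (3 / 2 : ℝ) < s.re} := by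
      show (3 / 2 : ℝ) < (2 : ℂ).re
      norm_num
    filter_upwards [nhdsWithin_le_nhds (hopen.mem_nhds h4)] with s hs
    show Φ s - Ψ s = 0
    rw [h s hs, sub_self]
  have h5 : meromorphicOrderAt (Φ - Ψ) 1 = ⊤ := by
    by_contra h6
    exact hf.meromorphicOrderAt_ne_top_of_isPreconnected hc h1 (h2 2 (by norm_num)) h6 h3
  rw [meromorphicOrderAt_eq_top_iff] at h5
  filter_upwards [h5] with s hs
  exact sub_eq_zero.1 hs

lemma cont_order {Φ Ψ : ℂ → ℂ} (h : Φ =ᶠ[𝓝[≠] 1] Ψ) (hΨ : Differentiable ℂ Ψ) (h1 : Ψ 1 ≠ 0) :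
    meromorphicOrderAt Φ 1 = 0 ∧ meromorphicTrailingCoeffAt Φ 1 = Ψ 1 := by
  rw [meromorphicOrderAt_congr h, meromorphicTrailingCoeffAt_congr_nhdsNE h,
    (hΨ.analyticAt 1).meromorphicTrailingCoeffAt_of_ne_zero h1,
    (hΨ.analyticAt 1).meromorphicOrderAt_eq, (hΨ.analyticAt 1).analyticOrderAt_eq_zero.2 h1]
  exact ⟨rfl, rfl⟩

end Pool.Agent.H508.Y
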