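import Pool.Agent.H508.D.V2

/-!
# The congruence of Kronecker and the choice of the place, for all moduli

The statements of `D/K3` and `D/V2` for moduli which are not supposed to be odd.
-/

set_option autoImplicit false

open Complex Filter Topology NumberField
open scoped PeriodPair

namespace Pool.Agent.H508.Y

open Pool.Agent.Y688 Pool.Agent.W192.HK Pool.Agent.TH936.CM Pool.Agent.R430
open Pool.Agent.W245.EB H667R3
open Pool.Agent.H508.D

variable {L : PeriodPair} {Ω : ℂ} {Γ : Type} [LinearOrderedCommGroupWithZero Γ] {v : Valuation ℂ Γ}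

section
open Pool.Agent.TH936.PU

/-- **The congruence of Kronecker.** -/
theorem kron {π : RR} (h : HL L Ω) (h3 : (3 : RR) ∣ π - 1) {p : ℕ} (hp : p.Prime) (hp2 : p ≠ 2)
    (hcard : Nat.card (RR ⧸ sp π) = p) (hv : v (π : ℂ) < 1) (hv2 : v 2 = 1) (hv3 : v 3 = 1)
    {n : ℕ} (hn : 0 < n) (hn3 : 3 ∣ n) (hvn : v (n : ℂ) = 1) {σ : ℂ ≃+* ℂ}
    (hσw : σ w = w) {u : RR} (hu : Act L Ω σ n u)
    (hσ : v (σ (℘[L] (Ω / n)) - ℘[L] (Ω / n) ^ p) < 1) (hcop : IsCoprime π (n : RR))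
    (hun : IsCoprime u (n : RR)) : (n : RR) ∣ u - π := by
  have h0 : π ≠ 0 := by
    rintro rfl
    obtain ⟨k, hk⟩ := h3
    exact no3 ⟨-k, by linear_combination -hk⟩
  have hfin : Finite (RR ⧸ sp π) := Nat.finite_of_card_ne_zero (by rw [hcard]; exact hp.ne_zero)
  let _ : Fintype (RR ⧸ sp π) := Fintype.ofFinite _
  have hcard' : Fintype.card (RR ⧸ sp π) = p := by rw [← Nat.card_eq_fintype_card, hcard]
  have hp' : (Fintype.card (RR ⧸ sp π)).Prime := by rw [hcard']; exact hp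
  have hodd : Odd (Fintype.card (RR ⧸ sp π)) := by
    rw [hcard']
    exact hp.odd_of_ne_two hp2
  have hG := gd_of h hv2 hv3
  obtain ⟨c, _, hc⟩ := prod_pi h h0 h3
  have hc1 := c_one h h0 h3 hp' hodd hc hv hG hv3
  have hn0 : (n : ℂ) ≠ 0 := by exact_mod_cast hn.ne'
  have e1 : Ω / n = Ω * ((1 : RR) : ℂ) / n := by push_cast; rw [mul_one]
  have hnu : ∀ {a : RR}, IsCoprime a (n : RR) → ¬ (n : RR) ∣ a := by
    intro a ha hd
    have h4 : IsUnit (n : RR) := ha.isUnit_of_dvd' hd dvd_rfl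
    have h5 : (3 : RR) ∣ 1 := by
      have h6 : (3 : RR) ∣ (n : RR) := by exact_mod_cast Nat.cast_dvd_cast (α := RR) hn3
      exact h6.trans h4.dvd
    exact no3 h5
  have htp : ∀ {a : RR}, IsCoprime a (n : RR) → Tp v L (Ω * a / n) := by
    intro a ha
    refine ⟨fun h4 => hnu ha ((lat_iff h.toIsLat hn a).1 h4), n, hvn, ?_⟩
    rw [mul_div_cancel₀ _ hn0]
    exact h.toIsLat.mem_mul _
  have h1 : Tp v L (Ω * ((1 : RR) : ℂ) / n) := htp isCoprime_one_left
  have h2 : 2 * (Ω * ((1 : RR) : ℂ) / n) ∉ L.lattice := by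
    have e : 2 * (Ω * ((1 : RR) : ℂ) / n) = Ω * ((2 : RR) : ℂ) / n := by
      have : ((2 : RR) : ℂ) = 2 := rfl
      rw [this]
      push_cast
      ring
    rw [e]
    rw [lat_iff h.toIsLat hn]
    intro hd
    have h6 : (3 : RR) ∣ (n : RR) := by exact_mod_cast Nat.cast_dvd_cast (α := RR) hn3
    obtain ⟨t, ht⟩ := h6.trans hd
    exact no3 ⟨1 - t, by linear_combination -ht⟩
  have h4 : (π : ℂ) * (Ω * ((1 : RR) : ℂ) / n) = Ω * π / n := by
    push_cast
    ring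
  have hπ : (π : ℂ) * (Ω * ((1 : RR) : ℂ) / n) ∉ L.lattice := by
    rw [h4]
    exact (htp hcop).ne
  have k1 := kron_c h h0 h3 hp' hodd hc hv hG h1 h2 hπ
  rw [hc1, one_mul, hcard', h4] at k1
  have k2 := (hu 1).vals h1.ne
  rw [e1, k2.1, mul_one] at hσ
  have k3 : v (℘[L] (Ω * u / n) - ℘[L] (Ω * π / n)) < 1 := by
    have e : ℘[L] (Ω * u / n) - ℘[L] (Ω * π / n) =
        (℘[L] (Ω * u / n) - ℘[L] (Ω * ((1 : RR) : ℂ) / n) ^ p) -
          (℘[L] (Ω * π / n) - ℘[L] (Ω * ((1 : RR) : ℂ) / n) ^ p) := by ring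
    rw [e]
    exact v_sub_lt hσ k1
  have hu3 := hu.three h hσw hn hn3
  by_contra hcon
  have k4 : Ω * u / n - Ω * π / n ∉ L.lattice := by
    have e : Ω * u / n - Ω * π / n = Ω * ((u - π : RR) : ℂ) / n := by
      push_cast
      ring
    rw [e, lat_iff h.toIsLat hn]
    exact hcon
  have k5 : Ω * u / n + Ω * π / n ∉ L.lattice := by
    have e : Ω * u / n + Ω * π / n = Ω * ((u + π : RR) : ℂ) / n := by
      push_cast
      ring
    rw [e, lat_iff h.toIsLat hn]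
    intro hd
    have h6 : (3 : RR) ∣ u + π := by
      have h6 : (3 : RR) ∣ (n : RR) := by exact_mod_cast Nat.cast_dvd_cast (α := RR) hn3
      exact h6.trans hd
    obtain ⟨a, ha⟩ := h6
    obtain ⟨b, hb⟩ := hu3
    obtain ⟨c', hc'⟩ := h3
    have h7 : (3 : RR) ∣ 1 := ⟨1 - a + b + c', by linear_combination -ha + hb + hc'⟩
    exact no3 h7
  have k6 := (htp hun).diff hG (htp hcop) k5 k4
  exact k3.ne k6


end

/-- **the choice of the place** -/
theorem exists_pv (h : HL L Ω) {σ : ℂ ≃+* ℂ} (hw : σ w = w) {n : ℕ} (hn : 0 < n) (hn3 : 3 ∣ n)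
    {u : RR} (hun : IsCoprime u (n : RR)) (hu : Act L Ω σ n u) (K₀ : IntermediateField ℚ ℂ)
    [FiniteDimensional ℚ K₀] (N : ℕ) :
    ∃ p : ℕ, p.Prime ∧ N < p ∧ ∃ (Γ : Type) (_ : LinearOrderedCommGroupWithZero Γ)
      (v : Valuation ℂ Γ), v (p : ℂ) < 1 ∧ (∀ x ∈ K₀, IsIntegral ℤ x → v (σ x - x ^ p) < 1) ∧
      ∃ π : RR, Prime π ∧ v (π : ℂ) < 1 ∧ Nat.card (RR ⧸ sp π) = p ∧ IsCoprime π (n : RR) ∧
        (n : RR) ∣ u - π := by
  have hn1 : 1 < n := lt_of_lt_of_le (by norm_num) (Nat.le_of_dvd hn hn3)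
  have halg := wp_alg h hn hn1
  have hwint : IsIntegral ℤ w := RR_int (QR.om_mem qr)
  have hwalg : IsIntegral ℚ w := hwint.tower_top
  obtain ⟨m, hm0, hm⟩ := ((IsFractionRing.isAlgebraic_iff ℤ ℚ ℂ).2 halg).exists_integral_multiple
  rw [zsmul_eq_mul] at hm
  let K₁ : IntermediateField ℚ ℂ := IntermediateField.adjoin ℚ {w}
  let K₂ : IntermediateField ℚ ℂ := IntermediateField.adjoin ℚ {℘[L] (Ω / n)}
  have f1 : FiniteDimensional ℚ K₁ := IntermediateField.adjoin.finiteDimensional hwalg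
  have f2 : FiniteDimensional ℚ K₂ := IntermediateField.adjoin.finiteDimensional halg.isIntegral
  have hwK : w ∈ K₀ ⊔ K₁ ⊔ K₂ := (le_sup_right.trans le_sup_left : K₁ ≤ K₀ ⊔ K₁ ⊔ K₂)
    (IntermediateField.mem_adjoin_simple_self ℚ w)
  have hpK : ℘[L] (Ω / n) ∈ K₀ ⊔ K₁ ⊔ K₂ := (le_sup_right : K₂ ≤ K₀ ⊔ K₁ ⊔ K₂)
    (IntermediateField.mem_adjoin_simple_self ℚ _)
  obtain ⟨p, hp, hpN, Γ, _, v, hv, hfr⟩ := exists_val σ (K₀ ⊔ K₁ ⊔ K₂) (N + m.natAbs + n + 3)
  refine ⟨p, hp, by omega, Γ, inferInstance, v, hv, fun x hx => hfr x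
    ((le_sup_left.trans le_sup_left : K₀ ≤ K₀ ⊔ K₁ ⊔ K₂) hx), ?_⟩
  have hun' : ∀ k : ℤ, k ≠ 0 → k.natAbs < p → v (k : ℂ) = 1 := fun k hk0 hk => v_unit hp hv
    fun hd => by
      have h1 := Nat.le_of_dvd (Int.natAbs_pos.2 hk0) (Int.natCast_dvd.1 hd)
      omega
  have hv2 : v (2 : ℂ) = 1 := by
    have := hun' 2 (by norm_num) (by norm_num; omega)
    exact_mod_cast this
  have hv3 : v (3 : ℂ) = 1 := by
    have := hun' 3 (by norm_num) (by norm_num; omega)
    exact_mod_cast this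
  have hvn : v (n : ℂ) = 1 := by
    have := hun' n (by exact_mod_cast hn.ne') (by simp; omega)
    exact_mod_cast this
  have hvm : v (m : ℂ) = 1 := hun' m hm0 (by omega)
  -- the ideal
  let I : Ideal RR :=
    { carrier := {x : RR | v (x : ℂ) < 1}
      add_mem' := fun {a b} ha hb => by
        show v ((a + b : RR) : ℂ) < 1
        push_cast
        exact v.map_add_lt ha hb
      zero_mem' := by
        show v ((0 : RR) : ℂ) < 1
        push_cast
        rw [map_zero]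
        exact zero_lt_one
      smul_mem' := fun c x hx => by
        show v ((c * x : RR) : ℂ) < 1
        push_cast
        rw [map_mul]
        exact mul_lt_one_of_nonneg_of_lt_one_right (v_RR c) zero_le hx }
  have hI : ∀ x : RR, x ∈ I ↔ v (x : ℂ) < 1 := fun x => Iff.rfl
  obtain ⟨q, hq⟩ : ∃ q : RR, I = Ideal.span {q} := ⟨_, (Submodule.IsPrincipal.span_singleton_generator
    (I : Submodule RR RR)).symm⟩
  have hqI : ∀ x : RR, q ∣ x ↔ v (x : ℂ) < 1 := fun x => by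
    rw [← hI, hq, Ideal.mem_span_singleton]
  have hp0 : (p : RR) ≠ 0 := Nat.cast_ne_zero.2 hp.ne_zero
  have hq0 : q ≠ 0 := by
    rintro rfl
    have h1 := (hqI (p : RR)).2 (by push_cast; exact hv)
    exact hp0 (zero_dvd_iff.1 h1)
  have hqp : Prime q := by
    refine ⟨hq0, fun hu => ?_, fun a b hab => ?_⟩
    · have h1 := (hqI 1).1 hu.dvd
      push_cast at h1
      rw [map_one] at h1
      exact lt_irrefl _ h1
    · rw [hqI] at hab
      push_cast at hab
      rw [map_mul] at hab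
      by_contra hcon
      push Not at hcon
      rw [hqI, hqI, not_lt, not_lt] at hcon
      rw [le_antisymm (v_RR a) hcon.1, le_antisymm (v_RR b) hcon.2, one_mul] at hab
      exact lt_irrefl _ hab
  -- normalisation
  obtain ⟨π, hass, hπ3⟩ : ∃ π : RR, Associated q π ∧ (3 : RR) ∣ π - 1 := by
    rcases three_cases q with hl | ⟨e, t, het⟩
    · exfalso
      have h1 : q ∣ 3 := by
        have h2 : Associated q lam := by
          obtain ⟨c, hc⟩ := hl
          rcases hqp.irreducible.isUnit_or_isUnit hc with h3 | h3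
          · exact absurd h3 not_unit_lam
          · obtain ⟨c', rfl⟩ := h3
            exact ⟨c'⁻¹, by rw [hc, mul_assoc, Units.mul_inv, mul_one]⟩
        exact h2.dvd.trans lam_dvd_three
      rw [hqI] at h1
      push_cast at h1
      have h3 : v ((3 : RR) : ℂ) = v 3 := rfl
      rw [h3, hv3] at h1
      exact lt_irrefl _ h1
    · refine ⟨q * ((e⁻¹ : RRˣ) : RR), ⟨e⁻¹, rfl⟩, ⟨t * ((e⁻¹ : RRˣ) : RR), ?_⟩⟩
      rw [het]
      have h1 : (e : RR) * ((e⁻¹ : RRˣ) : RR) = 1 := e.mul_inv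
      linear_combination h1
  have hπI : ∀ x : RR, π ∣ x ↔ v (x : ℂ) < 1 := fun x => by
    rw [← hqI, hass.dvd_iff_dvd_left]
  have hπp : Prime π := hass.prime hqp
  have hcop : IsCoprime π (n : RR) := by
    refine (hπp.irreducible.coprime_iff_not_dvd).2 fun hd => ?_
    rw [hπI] at hd
    push_cast at hd
    rw [hvn] at hd
    exact lt_irrefl _ hd
  have hcard : Nat.card (RR ⧸ sp π) = p := by
    have hmax : (sp π).IsMaximal := by
      have h1 : (sp π).IsPrime := (Ideal.span_singleton_prime hπp.ne_zero).2 hπp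
      exact h1.isMaximal (by rw [Ne, Ideal.span_singleton_eq_bot]; exact hπp.ne_zero)
    let _ : Field (RR ⧸ sp π) := Ideal.Quotient.field _
    refine card_fix hp ?_ ?_
    · have h1 : ((p : ℕ) : RR ⧸ sp π) = Ideal.Quotient.mk (sp π) (p : RR) := by rw [map_natCast]
      rw [h1, Ideal.Quotient.eq_zero_iff_mem, Ideal.mem_span_singleton, hπI]
      push_cast
      exact hv
    · intro x
      obtain ⟨x, rfl⟩ := Ideal.Quotient.mk_surjective x
      rw [← map_pow, Ideal.Quotient.eq, Ideal.mem_span_singleton, hπI]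
      have hxK : (x : ℂ) ∈ K₀ ⊔ K₁ ⊔ K₂ := by
        obtain ⟨a, b, hr⟩ := (qr.mem x).1 x.2
        rw [hr]
        exact add_mem (intCast_mem _ _) (mul_mem (intCast_mem _ _) hwK)
      have h1 := hfr x hxK (RR_int x.2)
      rw [fix_RR hw] at h1
      push_cast
      rw [← neg_sub, Valuation.map_neg]
      exact h1
  refine ⟨π, hπp, (hπI π).1 dvd_rfl, hcard, hcop, ?_⟩
  refine kron h hπ3 hp (by omega) hcard ((hπI π).1 dvd_rfl) hv2 hv3 hn hn3 hvn hw hu ?_ hcop hun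
  -- the congruence for the value
  have hx : (m : ℂ) * ℘[L] (Ω / n) ∈ K₀ ⊔ K₁ ⊔ K₂ := mul_mem (intCast_mem _ _) hpK
  have h1 := hfr _ hx hm
  have h2 : v (℘[L] (Ω / n)) ≤ 1 := by
    have := v_integral (v := v) hm
    rwa [map_mul, hvm, one_mul] at this
  have h3 : v ((m : ℂ) ^ p - m) < 1 := by
    have : Fact p.Prime := ⟨hp⟩
    have h4 : (p : ℤ) ∣ m ^ p - m := by
      rw [← ZMod.intCast_zmod_eq_zero_iff_dvd]
      push_cast
      rw [ZMod.pow_card, sub_self]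
    obtain ⟨k, hk⟩ := h4
    have h5 : ((m : ℂ) ^ p - m) = (p : ℂ) * k := by exact_mod_cast congrArg (fun z : ℤ => (z : ℂ)) hk
    rw [h5, map_mul]
    exact mul_lt_one_of_nonneg_of_lt_one_left zero_le hv (v_int k)
  have e : σ (℘[L] (Ω / n)) - ℘[L] (Ω / n) ^ p = (m : ℂ)⁻¹ *
      ((σ ((m : ℂ) * ℘[L] (Ω / n)) - ((m : ℂ) * ℘[L] (Ω / n)) ^ p) +
        ((m : ℂ) ^ p - m) * ℘[L] (Ω / n) ^ p) := by
    have hmc : (m : ℂ) ≠ 0 := by exact_mod_cast hm0
    rw [map_mul, map_intCast, mul_pow]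
    field_simp
    ring
  rw [e, map_mul, map_inv₀, hvm, inv_one, one_mul]
  refine v.map_add_lt h1 ?_
  rw [map_mul, map_pow]
  exact mul_lt_one_of_nonneg_of_lt_one_left zero_le h3 (pow_le_one₀ zero_le h2)

end Pool.Agent.H508.Y
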