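import Pool.Agent.H508.Y.A1
import Pool.Agent.H508.D.Q2
import Pool.Agent.H462.CTU.Val

/-!
# The action of the automorphisms of the complex numbers on the sums which give the central values
-/

set_option autoImplicit false
set_option linter.unusedSectionVars false

open Filter
open scoped Classical Topology PeriodPair

namespace Pool.Agent.H508.Y

open Pool.Agent.Y692.QS (Ei w nr toC)
open Pool.Agent.Y703.CT
open Pool.Agent.W192.HK Pool.Agent.TH936.CM
open Pool.Agent.TH936.PU
open Pool.Agent.W245.EB (wp_add_lattice wp'_add_lattice)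
open Pool.Agent.Y715.Dist Pool.Agent.Y715.Idn
open Pool.Agent.Y696 hiding HH
open Pool.Agent.Y715.T.Rs (eq0)
open Pool.Agent.Y703.CT.Ana (ej eo_j ej_u ej_ncop ej_prim)
open Pool.Agent.Y715.CT.Hec (cP XX X_mul X_per X_ne_iff X_cube X_one)
open Pool.Agent.H462.CTU.Phi Pool.Agent.H462.CTU.Chr
open Pool.Agent.H508.D (Act six_root fix_RR)

variable {L : PeriodPair} {Ω : ℂ} {σ : ℂ ≃+* ℂ}

/-- the primitive third root of unity in the two notations -/
lemma w_om : Pool.Agent.Y688.w = om := rfl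

lemma hl_of (h : Cur L Ω) : Pool.Agent.Y688.HL L Ω where
  toIsLat := h.lat
  g2 := h.g2
  g3 := h.g3

/-- `σ` acts as the multiplication by `u` on the points killed by `m` -/
def ActE (L : PeriodPair) (Ω : ℂ) (σ : ℂ ≃+* ℂ) (m u : eis) : Prop :=
  ∀ r : eis, Rl L σ (Ω * r / m) (Ω * (u * r : eis) / m)

lemma ActE.mul {m a u : eis} (ha : a ≠ 0) (hm : m ≠ 0) (h : ActE L Ω σ (a * m) u) : ActE L Ω σ m u := by
  intro r
  have ha0 : (a : ℂ) ≠ 0 := coe_ne ha
  have hm0 : (m : ℂ) ≠ 0 := coe_ne hm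
  have h1 := h (a * r)
  have e1 : Ω * ((a * r : eis) : ℂ) / ((a * m : eis) : ℂ) = Ω * r / m := by
    push_cast
    field_simp
  have e2 : Ω * ((u * (a * r) : eis) : ℂ) / ((a * m : eis) : ℂ) = Ω * ((u * r : eis) : ℂ) / m := by
    push_cast
    field_simp
  rwa [e1, e2] at h1

/-- a root of unity of order dividing six is fixed -/
lemma fix_root (hw : σ om = om) {z : ℂ} (hz : z = 0 ∨ z ^ 6 = 1) : σ z = z := by
  rcases hz with rfl | hz
  · exact map_zero _
  · obtain ⟨r, hr⟩ := six_root hz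
    rw [← hr]
    exact fix_RR hw r

lemma Dd_act {z z' t t' : ℂ} (hz : Rl L σ z z') (ht : Rl L σ t t') (htn : t ∉ L.lattice) :
    σ (Dd L z t) = Dd L z' t' := by
  unfold Dd
  by_cases h : z ∈ L.lattice
  · have h' := hz.mem_iff.1 h
    rw [L.derivWeierstrassP_coe ⟨_, h⟩, L.derivWeierstrassP_coe ⟨_, h'⟩, zero_div, zero_div, map_zero]
  · obtain ⟨h1, h2⟩ := hz.vals h
    obtain ⟨h3, -⟩ := ht.vals htn
    rw [map_div₀, map_sub, h1, h2, h3]

lemma Dd_per {z z' t t' : ℂ} (hz : z - z' ∈ L.lattice) (ht : t - t' ∈ L.lattice) :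
    Dd L z t = Dd L z' t' := by
  have e1 : z = z' + (z - z') := by ring
  have e2 : t = t' + (t - t') := by ring
  unfold Dd
  rw [e1, e2, wp_add_lattice L hz, wp'_add_lattice L hz, wp_add_lattice L ht]

section gen

variable {f c : eis} [Fintype (eis ⧸ (sp f : Ideal eis))] [Fintype (eis ⧸ (sp c : Ideal eis))]
  {e χ : eis → ℂ}

lemma HH_act (hC : Cur L Ω) (hf : f ≠ 0) (he : Eo f e) (hσe : ∀ x, σ (e x) = e x) {u : eis}
    (hu : ActE L Ω σ f u) (huf : IsCoprime f u) {t t' : ℂ} (ht : Rl L σ t t') (htn : t ∉ L.lattice) :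
    σ (HH L Ω f e t) * e u = HH L Ω f e t' := by
  have hf0 : (f : ℂ) ≠ 0 := coe_ne hf
  unfold HH
  rw [← sum_mul_bij huf (F := fun r : eis => e r * Dd L (Ω * r / f) t')]
  · rw [map_mul, map_div₀, map_one, map_ofNat, map_sum, mul_assoc, Finset.sum_mul]
    congr 1
    refine Finset.sum_congr rfl fun y _ => ?_
    rw [map_mul, hσe, Dd_act (hu y.out) ht htn, he.mul]
    ring
  · intro x y hxy
    rw [he.per x y hxy]
    congr 1
    refine Dd_per ?_ ?_
    · have := (div_mem_iff hC.lat hf (x - y)).2 hxy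
      convert this using 1
      push_cast
      ring
    · rw [sub_self]
      exact zero_mem _

/-- **The action on the sum.** -/
theorem gen_act (hC : Cur L Ω) (hf : f ≠ 0) (hc : c ≠ 0) (he : Eo f e) (hχ : Xo c χ)
    (hσe : ∀ x, σ (e x) = e x) (hσχ : ∀ x, σ (χ x) = χ x) {u : eis}
    (hu : ActE L Ω σ (f * c) u) (huf : IsCoprime f u) (huc : IsCoprime c u) :
    σ (∑ x : eis ⧸ (sp c : Ideal eis), χ x.out * HH L Ω f e (Ω * x.out / c)) * (e u * χ u) =
      ∑ x : eis ⧸ (sp c : Ideal eis), χ x.out * HH L Ω f e (Ω * x.out / c) := by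
  have hc0 : (c : ℂ) ≠ 0 := coe_ne hc
  have hu1 : ActE L Ω σ c u := hu.mul hf hc
  have hu2 : ActE L Ω σ f u := by
    refine ActE.mul (a := c) hc hf ?_
    rwa [mul_comm]
  have key := sum_mul_bij huc (F := fun r : eis => χ r * HH L Ω f e (Ω * r / c)) ?_
  · refine Eq.trans ?_ key
    rw [map_sum, Finset.sum_mul]
    refine Finset.sum_congr rfl fun x _ => ?_
    rw [map_mul, hσχ, hχ.mul]
    by_cases hx : x.out ∈ (sp c : Ideal eis)
    · rw [hχ.zero _ hx]
      ring
    · have hxn : Ω * x.out / c ∉ L.lattice := by rwa [div_mem_iff hC.lat hc]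
      rw [← HH_act hC hf he hσe hu2 huf (hu1 x.out) hxn]
      ring
  · intro x y hxy
    rw [hχ.per x y hxy]
    congr 1
    unfold HH
    congr 1
    refine Finset.sum_congr rfl fun z _ => ?_
    congr 1
    refine Dd_per ?_ ?_
    · rw [sub_self]
      exact zero_mem _
    · have := (div_mem_iff hC.lat hc (x - y)).2 hxy
      convert this using 1
      push_cast
      ring

end gen

/-! ### the values of the characters -/

lemma unit_six {u : eis} (hu : IsUnit u) : (u : ℂ) ^ 6 = 1 := by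
  have h3 := om_cube
  rw [unit_list] at hu
  simp only [Set.mem_insert_iff, Set.mem_singleton_iff] at hu
  rcases hu with rfl | rfl | rfl | rfl | rfl | rfl
  · push_cast; ring
  · push_cast; ring
  · rw [omr_coe]; linear_combination (om ^ 3 + 1) * h3
  · push_cast; rw [omr_coe]; linear_combination (om ^ 3 + 1) * h3
  · push_cast; rw [omr_coe]; linear_combination (om ^ 9 + om ^ 6 + om ^ 3 + 1) * h3
  · push_cast; rw [omr_coe]; linear_combination (om ^ 9 + om ^ 6 + om ^ 3 + 1) * h3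

lemma ej_root (j : Fin 3) (x : eis) : ej j x = 0 ∨ ej j x ^ 6 = 1 := by
  by_cases hx : IsCoprime x 3
  · right
    obtain ⟨u, hu, hu3⟩ := cop_three hx
    rw [(eo_j j).per _ _ hu3, ej_u j hu, ← pow_mul, mul_comm, pow_mul, unit_six hu, one_pow]
  · left
    exact ej_ncop j hx

lemma w_six (n : ℕ) : (toC w ^ n) ^ 6 = 1 := by
  rw [← pow_mul, mul_comm, pow_mul]
  have h : toC w ^ 6 = (toC w ^ 3) ^ 2 := by ring
  rw [h, Pool.Agent.Y715.T.Fin.toC_w_cube, one_pow, one_pow]

lemma ek_root (k : ZMod 3) (j : Fin 3) (x : eis) : ek k j x = 0 ∨ ek k j x ^ 6 = 1 := by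
  unfold ek
  rcases ej_root j x with h | h
  · left
    rw [h, zero_mul]
  · right
    rw [mul_pow, h, one_mul]
    exact w_six _

lemma ek_zero (j : Fin 3) (x : eis) : ek 0 j x = ej j x := by
  unfold ek ck
  rw [zero_mul, ZMod.val_zero, pow_zero, mul_one]

section

variable {J : Type} [Fintype J] {π : J → Ei} {e : J → ZMod 3}

lemma XX_root (h : Dt π e) (x : eis) : XX π e x = 0 ∨ XX π e x ^ 6 = 1 := by
  by_cases hx : XX π e x = 0
  · exact Or.inl hx
  · right
    have h1 := X_cube h ((X_ne_iff h).1 hx)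
    have h2 : XX π e x ^ 6 = (XX π e x ^ 3) ^ 2 := by ring
    rw [h2, h1, one_pow]

end

end Pool.Agent.H508.Y
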