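import Pool.Agent.H508.Y.A2

/-!
# The central value of the Hecke `L`-function and the automorphisms of the complex numbers
-/

set_option autoImplicit false
set_option linter.unusedSectionVars false

open Filter
open scoped Classical Topology PeriodPair

namespace Pool.Agent.H508.Y

open Pool.Agent.Y692.QS (Ei w nr toC)
open Pool.Agent.Y703.CT
open Pool.Agent.W192.HK Pool.Agent.TH936.CM
open Pool.Agent.TH936.PU
open Pool.Agent.Y715.Dist Pool.Agent.Y715.Idn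
open Pool.Agent.Y696 hiding HH
open Pool.Agent.Y715.T.Rs (eq0)
open Pool.Agent.Y703.CT.Ana (ej eo_j ej_u ej_ncop ej_prim)
open Pool.Agent.Y715.CT.Hec (cP XX X_mul X_per X_ne_iff X_cube X_one ex_j cop3 cP_ne mm mm_ne mm_cop)
open Pool.Agent.Y715.CT.AN1b (Xo_X)
open Pool.Agent.H462.CTU.Phi Pool.Agent.H462.CTU.Chr
open Pool.Agent.H462.CTU.Val (IsHLk)

variable {J : Type} [Fintype J] {π : J → Ei} {e : J → ZMod 3} {k : ZMod 3}

lemma f3_ne' : (f3 : eis) ≠ 0 := f3_ne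

set_option maxHeartbeats 1600000 in
/-- the central value as a finite sum, `k ≠ 0` -/
theorem val_k [Nonempty J] (hk : k ≠ 0) (h : Dt π e) : ∃ (j : Fin 3) (F : ℂ → ℂ), IsHLk k π e F ∧
    ∀ [Fintype (eis ⧸ (sp f3 : Ideal eis))] [Fintype (eis ⧸ (sp (cP π) : Ideal eis))]
      (L : PeriodPair) (Ω : ℂ), Cur L Ω →
      6 * (starRingEnd ℂ) (F 1) = Ω / (f3 * cP π) * (ek k j (cP π) * XX π e f3) *
        ∑ x : eis ⧸ (sp (cP π) : Ideal eis), XX π e x.out * HH L Ω f3 (ek k j) (Ω * x.out / cP π) := by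
  obtain ⟨j, hj⟩ := ex_j h
  have hθ := Pool.Agent.H462.CTU.Hec.hc_th h hj hk
  have hfin := Pool.Agent.Y715.T.LF.fin_quot
  have hc0 := cP_ne h
  have hq0 : f3 * cP π ≠ 0 := mul_ne_zero f3_ne hc0
  obtain ⟨F, g1, g2, g3⟩ := lim_L Pool.Agent.Y696.lbasic Pool.Agent.Y696.lfp Pool.Agent.Y696.lcnt
    Pool.Agent.Y696.ldec Pool.Agent.Y696.lafe qr hθ (sys_pid (hfin _ hq0))
  refine ⟨j, F, ⟨g1, fun s hs => (Pool.Agent.H462.CTU.Val.sum_iff h hj).1 (g2 s hs)⟩, ?_⟩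
  intro _ _ L Ω hC
  have h3 := cop3 h
  have hf3 : IsCoprime f3 (cP π) := cop_f3.2 h3
  have : Finite (eis ⧸ sp (f3 * cP π)) := hfin _ (mul_ne_zero f3_ne hc0)
  have : Fintype (eis ⧸ sp (f3 * cP π)) := Fintype.ofFinite _
  have hXo := Xo_X h
  refine tendsto_nhds_unique ?_ (lim_SS hC.lat f3_ne hc0 hf3 (eo_k k j) hXo)
  rw [Pool.Agent.Y715.T.LF.nu_eq] at g3
  have e6 : (((6 : ℕ) : ℂ)) = 6 := by norm_num
  rw [e6] at g3
  refine g3.congr fun δ => ?_
  rw [Finset.sum_singleton]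
  have t1 : Pool.Agent.H462.CTU.Hec.th π e k j ⊤ = 1 := by
    have e1 : (⊤ : Ideal eis) = sp 1 := by
      rw [eq_comm, Ideal.span_singleton_eq_top]
      exact isUnit_one
    rw [e1, hθ.princ 1 one_ne_zero (by rw [sub_self]; exact Submodule.zero_mem _)]
    simp
  have t2 : nm (⊤ : Ideal eis) = 1 :=
    ((Pool.Agent.Y696.lbasic eis om qr).2.2.2.2.2.2.1 ⊤).2 rfl
  rw [t1, one_mul, t2, div_one]
  congr 1
  funext α
  unfold cb fp
  rw [if_pos Submodule.mem_top, Pool.Agent.H462.CTU.Hec.th_sp h hj, pow_one]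
  unfold Pool.Agent.H462.CTU.Hec.gg
  by_cases h0 : α = 0
  · have h5 : ek k j 0 = 0 := (eo_k k j).zero (Submodule.zero_mem _)
    rw [h0, h5]
    simp
  · have h5 : (α : ℂ) ≠ 0 := coe_ne h0
    rw [mul_div_cancel_left₀ _ h5, Complex.conj_conj]

set_option maxHeartbeats 1600000 in
/-- the central value as a finite sum, `k = 0` -/
theorem val_0 [Nonempty J] (h : Dt π e) : ∃ (j : Fin 3) (F : ℂ → ℂ), IsHLk 0 π e F ∧
    ∀ [Fintype (eis ⧸ (sp (3 : eis) : Ideal eis))] [Fintype (eis ⧸ (sp (cP π) : Ideal eis))]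
      (L : PeriodPair) (Ω : ℂ), Cur L Ω →
      6 * (starRingEnd ℂ) (F 1) = Ω / ((3 : eis) * cP π) * (ej j (cP π) * XX π e 3) *
        ∑ x : eis ⧸ (sp (cP π) : Ideal eis), XX π e x.out * HH L Ω 3 (ej j) (Ω * x.out / cP π) := by
  obtain ⟨j, hj⟩ := ex_j h
  have hθ := Pool.Agent.Y715.CT.Hec.hc_th h hj
  have hfin := Pool.Agent.Y715.T.LF.fin_quot
  have hc0 := cP_ne h
  have hq0 : mm j * cP π ≠ 0 := mul_ne_zero (mm_ne j) hc0
  obtain ⟨F, g1, g2, g3⟩ := lim_L Pool.Agent.Y696.lbasic Pool.Agent.Y696.lfp Pool.Agent.Y696.lcnt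
    Pool.Agent.Y696.ldec Pool.Agent.Y696.lafe qr hθ (sys_pid (hfin _ hq0))
  refine ⟨j, F, ⟨g1, fun s hs => ?_⟩, ?_⟩
  · refine ((Pool.Agent.Y715.CT.AN1b.sum_iff h hj).1 (g2 s hs)).congr_fun fun α => ?_
    rw [zero_mul, neg_zero, ZMod.val_zero, pow_zero, one_mul]
  intro _ _ L Ω hC
  have h3 := cop3 h
  have h3n := Pool.Agent.Y696.three_ne
  have : Finite (eis ⧸ sp (3 * cP π)) := hfin _ (mul_ne_zero h3n hc0)
  have : Fintype (eis ⧸ sp (3 * cP π)) := Fintype.ofFinite _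
  have hXo := Xo_X h
  refine tendsto_nhds_unique ?_ (lim_SS hC.lat h3n hc0 h3 (eo_j j) hXo)
  rw [Pool.Agent.Y715.T.LF.nu_eq] at g3
  have e6 : (((6 : ℕ) : ℂ)) = 6 := by norm_num
  rw [e6] at g3
  refine g3.congr fun δ => ?_
  rw [Finset.sum_singleton]
  have t1 : Pool.Agent.Y715.CT.Hec.th π e j ⊤ = 1 := by
    have e1 : (⊤ : Ideal eis) = sp 1 := by
      rw [eq_comm, Ideal.span_singleton_eq_top]
      exact isUnit_one
    rw [e1, hθ.princ 1 one_ne_zero (by rw [sub_self]; exact Submodule.zero_mem _)]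
    simp
  have t2 : nm (⊤ : Ideal eis) = 1 :=
    ((Pool.Agent.Y696.lbasic eis om qr).2.2.2.2.2.2.1 ⊤).2 rfl
  rw [t1, one_mul, t2, div_one]
  congr 1
  funext α
  unfold cb fp
  rw [if_pos Submodule.mem_top, Pool.Agent.Y715.CT.Hec.th_sp h hj, pow_one]
  unfold Pool.Agent.Y715.CT.Hec.gg
  by_cases h0 : α = 0
  · have h5 : ej j 0 = 0 := (eo_j j).zero (Submodule.zero_mem _)
    rw [h0, h5]
    simp
  · have h5 : (α : ℂ) ≠ 0 := coe_ne h0
    rw [mul_div_cancel_left₀ _ h5, Complex.conj_conj]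

variable {σ : ℂ ≃+* ℂ}

lemma fix_eis (hw : σ om = om) (r : eis) : σ (r : ℂ) = r := by
  obtain ⟨x, y, hr⟩ := r.2
  rw [hr, map_add, map_mul, map_intCast, map_intCast, hw]

/-- **The action on the central value.** -/
theorem act_val [Nonempty J] (h : Dt π e) (k : ZMod 3) : ∃ (j : Fin 3) (F : ℂ → ℂ), IsHLk k π e F ∧
    ∀ (L : PeriodPair) (Ω : ℂ), Cur L Ω → ∀ σ : ℂ ≃+* ℂ, σ om = om → ∀ u : eis,
      ActE L Ω σ (f3 * cP π) u → IsCoprime (f3 * cP π) u →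
      σ ((starRingEnd ℂ) (F 1) / Ω) * (ek k j u * XX π e u) = (starRingEnd ℂ) (F 1) / Ω := by
  have hfin := Pool.Agent.Y715.T.LF.fin_quot
  have hc0 := cP_ne h
  have hXo := fun (i : Fintype (eis ⧸ (sp (cP π) : Ideal eis))) => @Xo_X J _ π e h _ i
  have : Finite (eis ⧸ (sp (cP π) : Ideal eis)) := hfin _ hc0
  have i1 : Fintype (eis ⧸ (sp (cP π) : Ideal eis)) := Fintype.ofFinite _
  by_cases hk : k = 0
  · subst hk
    obtain ⟨j, F, hF, hv⟩ := val_0 h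
    have h3n := Pool.Agent.Y696.three_ne
    have : Finite (eis ⧸ (sp (3 : eis) : Ideal eis)) := hfin _ h3n
    have i2 : Fintype (eis ⧸ (sp (3 : eis) : Ideal eis)) := Fintype.ofFinite _
    refine ⟨j, F, hF, fun L Ω hC σ hw u hu hcop => ?_⟩
    have hΩ := hC.lat.ne
    have h1 := hv L Ω hC
    have hu' : ActE L Ω σ (3 * cP π) u := by
      refine ActE.mul (a := Pool.Agent.Y715.T.Lat.la) Pool.Agent.Y715.CT.Hec.la_ne
        (mul_ne_zero h3n hc0) ?_
      rwa [← mul_assoc]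
    have hcop3 : IsCoprime (3 : eis) u := by
      refine hcop.of_isCoprime_of_dvd_left ?_
      exact ⟨Pool.Agent.Y715.T.Lat.la * cP π, by unfold f3; ring⟩
    have hcopc : IsCoprime (cP π) u := hcop.of_isCoprime_of_dvd_left (dvd_mul_left _ _)
    have h2 := gen_act hC h3n hc0 (eo_j j) (Xo_X h) (fun x => fix_root hw (ej_root j x))
      (fun x => fix_root hw (XX_root h x)) hu' hcop3 hcopc
    rw [ek_zero]
    have hcC : ((cP π : eis) : ℂ) ≠ 0 := coe_ne hc0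
    have e1 : (starRingEnd ℂ) (F 1) / Ω = (6 : ℂ)⁻¹ * (((3 : eis) : ℂ) * cP π)⁻¹ *
        (ej j (cP π) * XX π e 3) * ∑ x : eis ⧸ (sp (cP π) : Ideal eis), XX π e x.out *
          HH L Ω 3 (ej j) (Ω * x.out / cP π) := by
      have e2 : (starRingEnd ℂ) (F 1) = (6 : ℂ)⁻¹ * (6 * (starRingEnd ℂ) (F 1)) := by ring
      rw [e2, h1]
      field_simp
    rw [e1]
    rw [map_mul, map_mul, map_mul, map_inv₀, map_inv₀, map_mul, fix_eis hw, fix_eis hw, map_mul,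
      fix_root hw (ej_root j _), fix_root hw (XX_root h _), map_ofNat, mul_assoc, h2]
  · obtain ⟨j, F, hF, hv⟩ := val_k hk h
    have : Finite (eis ⧸ (sp f3 : Ideal eis)) := hfin _ f3_ne
    have i2 : Fintype (eis ⧸ (sp f3 : Ideal eis)) := Fintype.ofFinite _
    refine ⟨j, F, hF, fun L Ω hC σ hw u hu hcop => ?_⟩
    have hΩ := hC.lat.ne
    have h1 := hv L Ω hC
    have hcop3 : IsCoprime f3 u := hcop.of_isCoprime_of_dvd_left (dvd_mul_right _ _)
    have hcopc : IsCoprime (cP π) u := hcop.of_isCoprime_of_dvd_left (dvd_mul_left _ _)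
    have h2 := gen_act hC f3_ne hc0 (eo_k k j) (Xo_X h) (fun x => fix_root hw (ek_root k j x))
      (fun x => fix_root hw (XX_root h x)) hu hcop3 hcopc
    have hcC : ((cP π : eis) : ℂ) ≠ 0 := coe_ne hc0
    have e1 : (starRingEnd ℂ) (F 1) / Ω = (6 : ℂ)⁻¹ * (((f3 : eis) : ℂ) * cP π)⁻¹ *
        (ek k j (cP π) * XX π e f3) * ∑ x : eis ⧸ (sp (cP π) : Ideal eis), XX π e x.out *
          HH L Ω f3 (ek k j) (Ω * x.out / cP π) := by
      have e2 : (starRingEnd ℂ) (F 1) = (6 : ℂ)⁻¹ * (6 * (starRingEnd ℂ) (F 1)) := by ring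
      rw [e2, h1]
      field_simp
    rw [e1]
    rw [map_mul, map_mul, map_mul, map_inv₀, map_inv₀, map_mul, fix_eis hw, fix_eis hw, map_mul,
      fix_root hw (ek_root k j _), fix_root hw (XX_root h _), map_ofNat, mul_assoc, h2]

end Pool.Agent.H508.Y
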