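import Pool.Agent.H508.Y.A3
import Pool.Agent.H462.CTU.LK
import Pool.Graph.R_seed8.Y577.LU.L1
import Pool.Graph.R_seed8.Y350.CT.REC

/-!
# The cube root of `D` and the automorphisms of the complex numbers
-/

set_option autoImplicit false
set_option linter.unusedSectionVars false

open Filter
open scoped Classical Topology PeriodPair

namespace Pool.Agent.H508.Y

open Pool.Agent.Y692.QS (Ei w nr toC)
open Pool.Agent.Y703.CT
open Pool.Agent.W192.HK Pool.Agent.TH936.CM
open Pool.Agent.Y715.Dist Pool.Agent.Y715.Idn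
open Pool.Agent.Y696 hiding HH RR
open Pool.Agent.Y715.T.Rs (eq0 eq0_coe card_quo)
open Pool.Agent.Y715.T.Rec (cs nn)
open Pool.Agent.Y715.T.RecG (Pq)
open Pool.Agent.Y715.CT.Hec (cP XX X_mul X_per X_ne_iff X_cube X_one ex_j cop3 cP_ne)
open Pool.Agent.Y715.CT.AN1b (Xo_X conj_w conj_X)
open Pool.Agent.H462.CTU.Phi Pool.Agent.H462.CTU.Chr
open Pool.Agent.H462.CTU.Val (IsHLk conj_ck)
open Pool.Agent.H462.CTU.LK (Dk chD_prime)
open Pool.Agent.Y688 (RR)
open Pool.Agent.H508.D (Act exists_act lat_iff v_integral v_unit)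

variable {L : PeriodPair} {Ω : ℂ} {σ : ℂ ≃+* ℂ}

/-- the identity between the two copies of the ring -/
noncomputable def te (r : RR) : eis := ⟨(r : ℂ), r.2⟩

lemma te_coe (r : RR) : ((te r : eis) : ℂ) = (r : ℂ) := rfl

noncomputable def tr (r : eis) : RR := ⟨(r : ℂ), r.2⟩

lemma tr_coe (r : eis) : ((tr r : RR) : ℂ) = (r : ℂ) := rfl

lemma te_dvd {a b : RR} (h : a ∣ b) : te a ∣ te b := by
  obtain ⟨c, hc⟩ := h
  exact ⟨te c, Subtype.ext (congrArg (fun z : RR => (z : ℂ)) hc)⟩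

lemma te_nat (n : ℕ) : te (n : RR) = (n : eis) := rfl

/-- the points killed by a divisor of `n` -/
lemma act_E {n : ℕ} (hn : 0 < n) {m m' : eis} (hm : m * m' = (n : eis)) {u : RR} (h : Act L Ω σ n u) :
    ActE L Ω σ m (te u) := by
  intro r
  have hn0 : (n : ℂ) ≠ 0 := by exact_mod_cast hn.ne'
  have hmc : (m : ℂ) * m' = n := by exact_mod_cast congrArg (fun z : eis => (z : ℂ)) hm
  have hm0 : (m : ℂ) ≠ 0 := left_ne_zero_of_mul (hmc ▸ hn0)
  have hm'0 : (m' : ℂ) ≠ 0 := right_ne_zero_of_mul (hmc ▸ hn0)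
  have h1 := h (tr (m' * r))
  have e1 : Ω * ((tr (m' * r) : RR) : ℂ) / n = Ω * r / m := by
    rw [tr_coe, ← hmc]
    push_cast
    field_simp
  have e2 : Ω * ((u * tr (m' * r) : RR) : ℂ) / n = Ω * ((te u * r : eis) : ℂ) / m := by
    push_cast
    rw [tr_coe, te_coe, ← hmc]
    push_cast
    field_simp
  rwa [e1, e2] at h1

/-- two different third roots of unity are not congruent -/
lemma root_eq {Γ : Type} [LinearOrderedCommGroupWithZero Γ] {v : Valuation ℂ Γ} (hv3 : v 3 = 1)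
    {a b : ℂ} (ha : a ^ 3 = 1) (hb : b ^ 3 = 1) (h : v (a - b) < 1) : a = b := by
  by_contra hne
  have hb0 : b ≠ 0 := by
    rintro rfl
    norm_num at hb
  have h1 : a ^ 2 + a * b + b ^ 2 = 0 := by
    have h2 : (a - b) * (a ^ 2 + a * b + b ^ 2) = 0 := by linear_combination ha - hb
    exact (mul_eq_zero.1 h2).resolve_left (sub_ne_zero.2 hne)
  have hroot : ∀ x : ℂ, x ^ 3 = 1 → v x = 1 := by
    intro x hx
    have h3 : v x ^ 3 = 1 := by rw [← map_pow, hx, map_one]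
    exact (pow_eq_one_iff_of_nonneg zero_le (by norm_num)).1 h3
  have h2 : (3 : ℂ) * b ^ 2 = -((a + 2 * b) * (a - b)) := by linear_combination h1
  have h3 := congrArg v h2
  rw [map_mul, map_pow, hv3, hroot b hb, one_pow, one_mul, Valuation.map_neg, map_mul] at h3
  have h4 : v (a + 2 * b) ≤ 1 := by
    refine (v.map_add _ _).trans (max_le (hroot a ha).le ?_)
    rw [map_mul, hroot b hb, mul_one]
    exact_mod_cast v_integral (v := v) (x := (2 : ℂ)) (by exact_mod_cast isIntegral_algebraMap (R := ℤ) (x := 2))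
  have h5 : v (a + 2 * b) * v (a - b) < 1 := mul_lt_one_of_nonneg_of_lt_one_right h4 zero_le h
  exact h5.ne h3.symm

lemma toC_int (x : Ei) : IsIntegral ℤ (toC x) := by
  have h : (toC x) ∈ RR := (eq0 x).2
  exact Pool.Agent.Y688.RR_int h


lemma six_toC {a : ZMod 3} : (toC w ^ a.val) ^ 3 = 1 := by
  rw [← pow_mul, mul_comm, pow_mul, Pool.Agent.Y715.T.Fin.toC_w_cube, one_pow]

lemma toC_nr (x : Ei) : toC x * (starRingEnd ℂ) (toC x) = ((nr x : ℤ) : ℂ) := by
  rw [Complex.mul_conj, Pool.Agent.Y692.QS.toC_normSq]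
  push_cast
  rfl

lemma nr_pos {x : Ei} (hx : x ≠ 0) : 0 < nr x := by
  have h0 := Pool.Agent.Y692.QS.nr_nonneg x
  rcases h0.lt_or_eq with h | h
  · exact h
  · exfalso
    apply hx
    have h1 := toC_nr x
    rw [← h, Int.cast_zero, Complex.mul_conj, Complex.ofReal_eq_zero, Complex.normSq_eq_zero] at h1
    exact (map_eq_zero_iff toC Pool.Agent.Y692.QS.toC_inj).1 h1

section
variable {J : Type} [Fintype J] {π : J → Ei} {e : J → ZMod 3} {k : ZMod 3} {D : Ei}

lemma dk_ne (hdt : Dt π e) (hD : Dk k π e D) : D ≠ 0 := by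
  rintro rfl
  have h2 : pD π e = 0 := zero_dvd_iff.1 ((hD.dvd (ρ := (0 : Ei))).1 dvd_rfl)
  unfold pD at h2
  obtain ⟨i, -, hi⟩ := Finset.prod_eq_zero_iff.1 h2
  exact (hdt.pq i).prime.ne_zero ((pow_eq_zero_iff fun h3 =>
    hdt.e0 i ((ZMod.val_eq_zero _).1 h3)).1 hi)

/-- **The cube root of `D`.** -/
theorem theta_act (hC : Cur L Ω) (hw : σ om = om) (hdt : Dt π e) (hD : Dk k π e D) {θ : ℂ}
    (hθ : θ ^ 3 = toC D) : ∃ u : eis, ActE L Ω σ (f3 * cP π) u ∧ IsCoprime (f3 * cP π) u ∧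
      ∀ j : Fin 3, σ θ = ek k j u * XX π (fun i => -e i) u * θ := by
  have hdt' : Dt π (fun i => -e i) := ⟨hdt.pq, hdt.nd, fun j => neg_ne_zero.2 (hdt.e0 j)⟩
  have hc0 := cP_ne hdt
  have hm0 : f3 * cP π ≠ 0 := mul_ne_zero f3_ne hc0
  have hh := hl_of hC
  have hDne : D ≠ 0 := dk_ne hdt hD
  -- the modulus
  set m : eis := f3 * cP π with hm
  set mb : eis := ⟨(starRingEnd ℂ) (m : ℂ), Pool.Agent.Y696.conj_mem m.2⟩ with hmb
  obtain ⟨n, hn⟩ := Pool.Agent.Y688.normSq_RR (tr m)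
  rw [tr_coe] at hn
  have hmm : m * mb = (n : eis) := by
    apply Subtype.ext
    push_cast
    rw [hmb]
    show (m : ℂ) * (starRingEnd ℂ) (m : ℂ) = _
    rw [Complex.mul_conj, hn]
    push_cast
    rfl
  have hmC : (m : ℂ) ≠ 0 := Pool.Agent.TH936.PU.coe_ne hm0
  have hn0 : 0 < n := by
    rcases Nat.eq_zero_or_pos n with h0 | h0
    · rw [h0, Nat.cast_zero, Complex.normSq_eq_zero] at hn
      exact absurd hn hmC
    · exact h0
  have hn3 : 3 ∣ n := by
    have h1 : Complex.normSq (m : ℂ) = 27 * Complex.normSq (cP π : ℂ) := by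
      rw [hm]
      push_cast
      rw [map_mul]
      congr 1
      rw [f3_coe, map_mul, Complex.normSq_ofNat]
      have h2 := Pool.Agent.Y715.T.Three.lam_sq
      have h3 : Complex.normSq Pool.Agent.Y715.T.Three.lam ^ 2 = 9 := by
        rw [← map_pow, pow_two, h2]
        rw [Complex.normSq_neg, Complex.normSq_ofNat]
        norm_num
      have h4 : Complex.normSq Pool.Agent.Y715.T.Three.lam = 3 := by
        have h5 := Complex.normSq_nonneg Pool.Agent.Y715.T.Three.lam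
        nlinarith
      rw [h4]
      norm_num
    obtain ⟨c', hc'⟩ := Pool.Agent.Y688.normSq_RR (tr (cP π))
    rw [tr_coe] at hc'
    rw [hn, hc'] at h1
    have h2 : n = 27 * c' := by exact_mod_cast h1
    omega
  obtain ⟨u, u', huu, hu⟩ := exists_act hh hw hn0
  have hcopn : IsCoprime u (n : RR) := by
    obtain ⟨t, ht⟩ := huu
    exact ⟨u', -t, by linear_combination ht⟩
  have hcopE : IsCoprime m (te u) := by
    obtain ⟨a, b, hab⟩ := hcopn
    have h1 : te a * te u + te b * (n : eis) = 1 :=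
      Subtype.ext (congrArg (fun z : RR => (z : ℂ)) hab)
    refine ⟨te b * mb, te a, ?_⟩
    rw [← hmm] at h1
    linear_combination h1
  refine ⟨te u, act_E hn0 hmm hu, hcopE, fun j => ?_⟩
  -- the place
  have hθint : IsIntegral ℤ θ := by
    refine IsIntegral.of_pow (n := 3) (by norm_num) ?_
    rw [hθ]
    exact toC_int D
  let K₀ : IntermediateField ℚ ℂ := IntermediateField.adjoin ℚ {θ}
  have f0 : FiniteDimensional ℚ K₀ := IntermediateField.adjoin.finiteDimensional hθint.tower_top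
  obtain ⟨p, hp, hpN, Γ, _, v, hv, hfr, π₀, hπ, hvπ, hcard, hcop, hdiv⟩ :=
    exists_pv hh (n := n) hw hn0 hn3 hcopn hu K₀ ((nr D).natAbs + 3)
  have hθK : θ ∈ K₀ := IntermediateField.mem_adjoin_simple_self ℚ θ
  have hfθ := hfr θ hθK hθint
  have hun : ∀ z : ℤ, z ≠ 0 → z.natAbs < p → v (z : ℂ) = 1 := fun z hz hzp => v_unit hp hv
    fun hd => by
      have h1 := Nat.le_of_dvd (Int.natAbs_pos.2 hz) (Int.natCast_dvd.1 hd)
      omega
  have hv3 : v (3 : ℂ) = 1 := by
    have := hun 3 (by norm_num) (by norm_num; omega)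
    exact_mod_cast this
  have hvi : ∀ x : Ei, v (toC x) ≤ 1 := fun x => v_integral (toC_int x)
  have hvD : v (toC D) = 1 := by
    have h1 := hun (nr D) (nr_pos hDne).ne' (by omega)
    rw [← toC_nr, map_mul] at h1
    have h2 : v ((starRingEnd ℂ) (toC D)) ≤ 1 := by
      rw [← Pool.Agent.Y692.QS.toC_star]
      exact hvi _
    by_contra h3
    have h4 : v (toC D) < 1 := lt_of_le_of_ne (hvi D) h3
    have h5 := mul_lt_one_of_nonneg_of_lt_one_left zero_le h4 h2
    exact h5.ne h1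
  have hvθ : v θ = 1 := by
    have h1 : v θ ^ 3 = 1 := by rw [← map_pow, hθ, hvD]
    exact (pow_eq_one_iff_of_nonneg zero_le (by norm_num)).1 h1
  -- the prime
  set ρ : Ei := eq0.symm (te π₀) with hρ
  have hρc : eq0 ρ = te π₀ := eq0.apply_symm_apply _
  have hρC : toC ρ = (π₀ : ℂ) := by rw [← eq0_coe, hρc]; rfl
  have hρp : Prime ρ := by
    rw [← MulEquiv.prime_iff (eq0 : Ei ≃* eis)]
    show Prime (eq0 ρ)
    rw [hρc]
    have h1 : Prime π₀ := hπ
    exact h1
  have hu3 : (3 : RR) ∣ u - 1 := hu.three hh hw hn0 hn3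
  have hπ3 : (3 : RR) ∣ π₀ - 1 := by
    have h1 : (3 : RR) ∣ (n : RR) := by exact_mod_cast Nat.cast_dvd_cast (α := RR) hn3
    have h2 := dvd_sub hu3 (h1.trans hdiv)
    have e1 : u - 1 - (u - π₀) = π₀ - 1 := by ring
    rwa [e1] at h2
  have hρ3 : (3 : Ei) ∣ ρ - 1 := by
    rw [← Pool.Agent.Y715.T.Ex.three_mem, hρc, Ideal.mem_span_singleton]
    exact te_dvd hπ3
  have hpq : Pq ρ := ⟨hρp, hρ3⟩
  have hnr : nr ρ = p := by
    rw [← card_quo]
    have h1 : Nat.card (Ei ⧸ Ideal.span {ρ}) = Nat.card (eis ⧸ Ideal.span {eq0 ρ}) := by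
      have h2 := Pool.Agent.Y715.T.Rs.quo (Ideal.span {ρ})
      rw [Ideal.map_span, Set.image_singleton] at h2
      exact Nat.card_congr h2.toEquiv
    rw [h1, hρc]
    have h2 : Nat.card (eis ⧸ Ideal.span {te π₀}) = p := hcard
    rw [h2]
  have hndD : ¬ ρ ∣ D := by
    rintro ⟨t, ht⟩
    have h1 : v (toC D) < 1 := by
      rw [ht, map_mul, map_mul, hρC]
      exact mul_lt_one_of_nonneg_of_lt_one_left zero_le hvπ (hvi t)
    exact h1.ne hvD
  -- the power of the cube root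
  set η : ℂ := toC w ^ (cs ρ D).val with hη
  have hp3 : p = 1 + 3 * nn ρ := by
    obtain ⟨a, ha⟩ := Pool.Agent.H462.CTU.LK.pq_nr hpq
    unfold nn
    have h1 := hp.one_lt
    omega
  have hpow : θ ^ p = θ * (toC D) ^ nn ρ := by
    rw [hp3, pow_add, pow_one, pow_mul, hθ]
  have hcong : v ((toC D) ^ nn ρ - η) < 1 := by
    obtain ⟨t, ht⟩ := Pool.Agent.Y715.T.RecG.cs_spec hpq.prime hpq.norm hndD
    have h1 := congrArg toC ht
    rw [map_sub, map_pow, map_pow, map_mul, hρC] at h1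
    rw [hη, h1, map_mul]
    exact mul_lt_one_of_nonneg_of_lt_one_left zero_le hvπ (hvi t)
  have hθ0 : θ ≠ 0 := by
    rintro rfl
    rw [map_zero] at hvθ
    exact zero_ne_one hvθ
  set ζ : ℂ := σ θ / θ with hζ
  have hζθ : σ θ = ζ * θ := by rw [hζ, div_mul_cancel₀ _ hθ0]
  have hσD : σ (toC D) = toC D := fix_eis hw (eq0 D)
  have hζ3 : ζ ^ 3 = 1 := by
    rw [hζ, div_pow, ← map_pow, hθ, hσD, div_self]
    rw [← hθ]
    exact pow_ne_zero 3 hθ0
  have hη3 : η ^ 3 = 1 := six_toC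
  have hζη : ζ = η := by
    refine root_eq hv3 hζ3 hη3 ?_
    have h1 : (ζ - η) * θ = (σ θ - θ ^ p) + ((toC D) ^ nn ρ - η) * θ := by
      rw [hζθ, hpow]
      ring
    have h2 : v ((ζ - η) * θ) < 1 := by
      rw [h1]
      refine v.map_add_lt hfθ ?_
      rw [map_mul, hvθ, mul_one]
      exact hcong
    rwa [map_mul, hvθ, mul_one] at h2
  rw [hζθ, hζη]
  congr 1
  -- the character
  have hdivE : (m : eis) ∣ te u - eq0 ρ := by
    rw [hρc]
    have h1 : (n : eis) ∣ te u - te π₀ := te_dvd hdiv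
    exact (Dvd.intro _ hmm).trans h1
  have e1 : ek k j (te u) = ek k j (eq0 ρ) := by
    refine (eo_k k j).per _ _ ?_
    rw [Ideal.mem_span_singleton]
    exact (dvd_mul_right _ _).trans hdivE
  have e2 : XX π (fun i => -e i) (te u) = XX π (fun i => -e i) (eq0 ρ) := by
    refine X_per hdt' ?_
    rw [Ideal.mem_span_singleton]
    exact (dvd_mul_left _ _).trans hdivE
  rw [e1, e2, ek_prim k j (Pool.Agent.Y715.T.Ex.three_mem.2 hρ3)]
  have h5 := chD_prime Pool.Agent.Y350.CT.rec hdt hD hpq hndD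
  rw [← conj_ck, ← conj_X hdt', ← map_mul] at h5
  have h6 := congrArg (starRingEnd ℂ) h5
  rw [Complex.conj_conj, conj_w] at h6
  rw [h6]

end

end Pool.Agent.H508.Y
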